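import Pool.Agent.W2helper22.CU.Stmts

/-!
# Project CU, piece SUBST
-/

set_option autoImplicit false

namespace Pool.Agent.W4helper65.CU

open Filter Pool.Agent.H540R2 Pool.Agent.W2helper86.KQ Pool.Agent.W2helper22.CU

theorem graph_adj {n : ℕ} (x : Fin (n.choose 2) → Bool) {i j : Fin n} (h : i < j) :
    (graph x).Adj i j ↔ x (pairNo n ⟨(i, j), h⟩) = true := by
  rw [graph, SimpleGraph.fromRel_adj]
  constructor
  · rintro ⟨-, ⟨h', e⟩ | ⟨h', e⟩⟩
    · exact e
    · exact absurd h (not_lt_of_gt h')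
  · intro e
    exact ⟨h.ne, Or.inl ⟨h, e⟩⟩

theorem exists_lit {n : ℕ} (u v : Fin n) : ∃ t : Fin (n.choose 2) ⊕ Bool,
    ∀ x : Fin (n.choose 2) → Bool, t.elim x id = true ↔ (graph x).Adj u v := by
  rcases lt_trichotomy u v with h | h | h
  · exact ⟨Sum.inl (pairNo n ⟨(u, v), h⟩), fun x => (graph_adj x h).symm⟩
  · subst h
    exact ⟨Sum.inr false, fun x => by simp⟩
  · refine ⟨Sum.inl (pairNo n ⟨(v, u), h⟩), fun x => ?_⟩
    rw [SimpleGraph.adj_comm]
    exact (graph_adj x h).symm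

theorem not_cliqueFree_iff' {V ι : Type*} [Fintype ι] (G : SimpleGraph V) {k : ℕ}
    (hk : Fintype.card ι = k) :
    ¬ G.CliqueFree k ↔ ∃ f : ι → V, ∀ i j, i ≠ j → G.Adj (f i) (f j) := by
  constructor
  · intro h
    obtain ⟨s, hs⟩ : ∃ s, G.IsNClique k s := by
      by_contra hc
      push Not at hc
      exact h hc
    have e : Fintype.card ι = Fintype.card s := by rw [hk, Fintype.card_coe, hs.card_eq]
    have e2 := Fintype.equivOfCardEq e
    refine ⟨fun i => (e2 i : V), fun i j hij => hs.isClique (e2 i).2 (e2 j).2 fun h' => ?_⟩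
    exact hij (e2.injective (Subtype.ext h'))
  · rintro ⟨f, hf⟩ hc
    classical
    have hinj : Function.Injective f := by
      intro i j hij
      by_contra hne
      exact (hf i j hne).ne hij
    refine hc (Finset.univ.image f) ⟨?_, ?_⟩
    · intro p hp q hq hpq
      simp only [Finset.coe_image, Finset.coe_univ, Set.image_univ, Set.mem_range] at hp hq
      obtain ⟨i, rfl⟩ := hp
      obtain ⟨j, rfl⟩ := hq
      exact hf i j fun h => hpq (by rw [h])
    · rw [Finset.card_image_of_injective _ hinj, Finset.card_univ, hk]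

theorem p_subst : P_SUBST := by
  intro K N n k H κ J W a φ hK hJW hW hinj hκ
  classical
  set ok : Fin N → Prop := fun p => (κ p ∈ J → p = a (κ p)) ∧ (κ p ∈ W → ∃ i u, φ i u = p)
    with hok
  set E : (Fin (n.choose 2) → Bool) → Fin N → Fin N → Prop := fun x p q =>
    (H.Adj p q ∧ κ p ≠ κ q ∧ ok p ∧ ok q) ∧
      ∀ i u j v, φ i u = p → φ j v = q → (graph x).Adj u v with hE
  have hEs : ∀ x p q, E x p q → E x q p := by
    rintro x p q ⟨⟨h1, h2, h3, h4⟩, h5⟩
    exact ⟨⟨h1.symm, h2.symm, h4, h3⟩, fun i u j v hu hv => (h5 j v i u hv hu).symm⟩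
  -- uniqueness of the preimage
  have huniq : ∀ {i j : W} {u v : Fin n}, φ i u = φ j v → i = j ∧ u = v := by
    intro i j u v h
    have h1 : i = j := by
      apply Subtype.ext
      rw [← hκ i u, ← hκ j v, h]
    subst h1
    exact ⟨rfl, hinj i h⟩
  have hlit : ∀ p q : Fin N, ∃ t : Fin (n.choose 2) ⊕ Bool,
      ∀ x : Fin (n.choose 2) → Bool, t.elim x id = true ↔ E x p q := by
    intro p q
    by_cases h : H.Adj p q ∧ κ p ≠ κ q ∧ ok p ∧ ok q
    · by_cases h2 : ∃ i u j v, φ i u = p ∧ φ j v = q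
      · obtain ⟨i, u, j, v, hu, hv⟩ := h2
        obtain ⟨t, ht⟩ := exists_lit u v
        refine ⟨t, fun x => (ht x).trans ⟨fun h3 => ⟨h, ?_⟩, fun h3 => h3.2 i u j v hu hv⟩⟩
        intro i' u' j' v' hu' hv'
        obtain ⟨-, rfl⟩ := huniq (hu.trans hu'.symm)
        obtain ⟨-, rfl⟩ := huniq (hv.trans hv'.symm)
        exact h3
      · refine ⟨Sum.inr true, fun x => ⟨fun _ => ⟨h, ?_⟩, fun _ => by simp⟩⟩
        intro i u j v hu hv
        exact absurd ⟨i, u, j, v, hu, hv⟩ h2
    · exact ⟨Sum.inr false, fun x => ⟨fun h3 => by simp at h3, fun h3 => absurd h3.1 h⟩⟩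
  choose σ' hσ' using hlit
  refine ⟨fun e => σ' ((pairNo N).symm e).1.1 ((pairNo N).symm e).1.2, fun x => ?_⟩
  set σ : Fin (N.choose 2) → Fin (n.choose 2) ⊕ Bool :=
    fun e => σ' ((pairNo N).symm e).1.1 ((pairNo N).symm e).1.2 with hσ
  have hadj1 : ∀ p q, p < q → ((graph (sub σ x)).Adj p q ↔ E x p q) := by
    intro p q hpq
    rw [graph_adj _ hpq, ← hσ' p q x]
    simp only [sub, hσ, Equiv.symm_apply_apply]
  have hadj : ∀ p q, (graph (sub σ x)).Adj p q ↔ E x p q := by
    intro p q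
    rcases lt_trichotomy p q with h | h | h
    · exact hadj1 p q h
    · subst h
      constructor
      · intro h; exact absurd h (SimpleGraph.irrefl _)
      · intro h; exact absurd rfl h.1.2.1
    · rw [SimpleGraph.adj_comm, hadj1 q p h]
      exact ⟨hEs _ _ _, hEs _ _ _⟩
  refine ⟨fun p q h => ((hadj p q).1 h).1.1, ?_, ?_⟩
  · intro h
    obtain ⟨f, hf⟩ := (not_cliqueFree_iff' _ (Fintype.card_fin K)).1 h
    have hinj2 : Function.Injective (fun i => κ (f i)) := by
      intro i j hij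
      by_contra hne
      exact ((hadj _ _).1 (hf i j hne)).1.2.1 hij
    have hbij : Function.Bijective (fun i => κ (f i)) :=
      Finite.injective_iff_bijective.1 hinj2
    choose g hg using hbij.2
    have hginj : ∀ i j, i ≠ j → g i ≠ g j := by
      intro i j hij h'
      exact hij (by rw [← hg i, ← hg j, h'])
    have hokf : ∀ i, ok (f i) := by
      intro i
      have : ∃ j : Fin K, j ≠ i := by
        haveI : Nontrivial (Fin K) := Fin.nontrivial_iff_two_le.2 hK
        exact exists_ne i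
      obtain ⟨j, hj⟩ := this
      exact ((hadj _ _).1 (hf j i hj)).1.2.2.2
    have hu : ∀ i : W, ∃ u, φ i u = f (g i) := by
      intro i
      have hg' : κ (f (g i)) = i := hg i
      obtain ⟨i', u, hu⟩ := (hokf (g i)).2 (by rw [hg']; exact i.2)
      have : i' = i := by
        apply Subtype.ext
        rw [← hκ i' u, hu, hg']
      subst this
      exact ⟨u, hu⟩
    choose u hu using hu
    refine (not_cliqueFree_iff' (ι := W) _ (by rw [Fintype.card_coe, hW])).2 ⟨u, ?_⟩
    intro i j hij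
    exact ((hadj _ _).1 (hf (g i) (g j) (hginj _ _ fun h' => hij (Subtype.ext h')))).2 i (u i)
      j (u j) (hu i) (hu j)
  · rintro u hu ⟨z, hz1, hz2, hz3, hz4⟩
    refine (not_cliqueFree_iff' _ (Fintype.card_fin K)).2 ⟨z, fun i j hij => (hadj _ _).2 ?_⟩
    have hokz : ∀ i, ok (z i) := by
      intro i
      refine ⟨fun h => ?_, fun h => ?_⟩
      · rw [hz1] at h ⊢
        exact hz3 i h
      · rw [hz1] at h
        exact ⟨⟨i, h⟩, u ⟨i, h⟩, (hz4 ⟨i, h⟩).symm⟩
    refine ⟨⟨hz2 i j hij, by rw [hz1, hz1]; exact hij, hokz i, hokz j⟩, ?_⟩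
    intro i' u' j' v' hu' hv'
    have ei : (i' : Fin K) = i := by rw [← hκ i' u', hu', hz1]
    have ej : (j' : Fin K) = j := by rw [← hκ j' v', hv', hz1]
    have e1 : φ i' u' = φ i' (u i') := by rw [hu', ← hz4 i', ei]
    have e2 : φ j' v' = φ j' (u j') := by rw [hv', ← hz4 j', ej]
    rw [hinj _ e1, hinj _ e2]
    refine hu i' j' fun h => hij ?_
    rw [← ei, ← ej, h]

end Pool.Agent.W4helper65.CU
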